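import Pool.Agent.Helper83.Rel.Harm2

/-!
# Gauss for the contents of families

The value at a point of one member of a family `a f = κ · ∏ Q_i · b f` with unit content.
-/

set_option autoImplicit false

namespace Pool.Agent.Helper83.TW

open NumberField Pool.Agent.Helper4.CB MvPolynomial Pool.Agent.Helper65.CB
open Pool.Agent.Helper69.CB Pool.Agent.Helper49.CB Pool.Agent.Helper83.Rel

/-- the scaled product -/
theorem prod_scaled {K : Type} [Field K] {n : ℕ} {ι : Type} (M : Multiset ι)
    (Q : ι → MvPolynomial (Fin n) K) (l : ι → K) (hl : ∀ i ∈ M, l i ≠ 0) :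
    (M.map Q).prod = C (M.map l).prod⁻¹ * (M.map fun i => C (l i) * Q i).prod := by
  induction M using Multiset.induction_on with
  | empty => simp
  | cons i M ih =>
    have hi := hl i (Multiset.mem_cons_self i M)
    rw [Multiset.map_cons, Multiset.prod_cons, ih fun j hj => hl j (Multiset.mem_cons_of_mem hj),
      Multiset.map_cons, Multiset.prod_cons, Multiset.map_cons, Multiset.prod_cons, mul_inv,
      C_mul]
    have h2 : (C (l i)⁻¹ : MvPolynomial (Fin n) K) * C (l i) = 1 := by
      rw [← C_mul, inv_mul_cancel₀ hi, C_1]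
    linear_combination (-(C (M.map l).prod⁻¹ : MvPolynomial (Fin n) K) *
      (M.map fun i => C (l i) * Q i).prod * Q i) * h2

/-- the value of the scaled product at a point where every factor is a unit -/
theorem vl_eval_prod {K : Type} [Field K] [NumberField K] {p : Pl K} {n : ℕ} {ι : Type}
    (M : Multiset ι) (g : ι → MvPolynomial (Fin n) K) {t : Fin n → K}
    (ht : ∀ i ∈ M, vl p (eval t (g i)) = 1) : vl p (eval t (M.map g).prod) = 1 := by
  induction M using Multiset.induction_on with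
  | empty => simp
  | cons i M ih =>
    rw [Multiset.map_cons, Multiset.prod_cons, map_mul, map_mul,
      ht i (Multiset.mem_cons_self i M), one_mul]
    exact ih fun j hj => ht j (Multiset.mem_cons_of_mem hj)

/-- **B.** the value of one member of a family with unit content at the point -/
theorem vl_eval_of_fam {K : Type} [Field K] [NumberField K] {p : Pl K} {n : ℕ}
    {ι κ : Type} (M : Multiset ι) (Q : ι → MvPolynomial (Fin n) K) (l : ι → K)
    (hl : ∀ i ∈ M, l i ≠ 0) (T : Finset κ) (a b : κ → MvPolynomial (Fin n) K)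
    (ha : (∀ f ∈ T, ∀ m, vl p ((a f).coeff m) ≤ 1) ∧
      ∃ f ∈ T, ∃ m, vl p ((a f).coeff m) = 1)
    {x y l' : K} (hy : y ≠ 0) (hl' : l' ≠ 0)
    (hxy : ∀ f ∈ T, C y * a f = C x * (M.map Q).prod * b f)
    (hQ : ∀ i ∈ M, UC p (C (l i) * Q i))
    (hb : (∀ f ∈ T, ∀ m, vl p ((C l' * b f).coeff m) ≤ 1) ∧
      ∃ f ∈ T, ∃ m, vl p ((C l' * b f).coeff m) = 1)
    {t : Fin n → K} (ht : ∀ i ∈ M, vl p (eval t (C (l i) * Q i)) = 1)
    (hbt : ∃ f ∈ T, vl p (eval t (C l' * b f)) = 1) :
    ∃ f ∈ T, vl p (eval t (a f)) = 1 := by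
  set P : MvPolynomial (Fin n) K := (M.map fun i => C (l i) * Q i).prod with hPdef
  set c : K := y⁻¹ * x * (M.map l).prod⁻¹ * l'⁻¹ with hc
  have hPU : UC p P := UC.multiset_prod M _ hQ
  -- every member is the constant `c` times the product
  have h2 : ∀ f ∈ T, a f = C c * (P * (C l' * b f)) := by
    intro f hf
    have h3 : (C y⁻¹ : MvPolynomial (Fin n) K) * C y = 1 := by
      rw [← C_mul, inv_mul_cancel₀ hy, C_1]
    have h4 : (C l'⁻¹ : MvPolynomial (Fin n) K) * C l' = 1 := by
      rw [← C_mul, inv_mul_cancel₀ hl', C_1]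
    calc a f = C y⁻¹ * C y * a f := by rw [h3, one_mul]
      _ = C y⁻¹ * (C y * a f) := by ring
      _ = C y⁻¹ * (C x * (C (M.map l).prod⁻¹ * P) * b f) := by
        rw [hxy f hf, prod_scaled M Q l hl]
      _ = C y⁻¹ * (C x * (C (M.map l).prod⁻¹ * P) * (C l'⁻¹ * C l' * b f)) := by
        rw [h4, one_mul]
      _ = _ := by
        rw [hc, C_mul, C_mul, C_mul]
        ring
  -- integrality of the product family
  have h5 : ∀ f ∈ T, ∀ m, vl p (coeff m (P * (C l' * b f))) ≤ 1 := by
    intro f hf m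
    rw [coeff_mul]
    refine Valuation.map_sum_le _ fun x _ => ?_
    rw [map_mul]
    exact mul_le_one' (hPU.1 x.1) (hb.1 f hf x.2)
  obtain ⟨f0, hf0, m0, hm0⟩ := hb.2
  have h6 : UC p (P * (C l' * b f0)) :=
    Pool.Agent.Helper43.Rel.UC_mul hPU ⟨hb.1 f0 hf0, m0, hm0⟩
  have h7 : vl p c = 1 := by
    refine le_antisymm ?_ ?_
    · obtain ⟨-, m, hm⟩ := h6
      have h8 := ha.1 f0 hf0 m
      rwa [h2 f0 hf0, coeff_C_mul, map_mul, hm, mul_one] at h8
    · obtain ⟨f, hf, m, hm⟩ := ha.2
      rw [h2 f hf, coeff_C_mul, map_mul] at hm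
      rw [← hm]
      exact mul_le_of_le_one_right' (h5 f hf m)
  obtain ⟨f, hf, hft⟩ := hbt
  refine ⟨f, hf, ?_⟩
  rw [h2 f hf, map_mul, eval_C, map_mul, h7, one_mul, map_mul, map_mul, hft, mul_one]
  exact vl_eval_prod M _ ht

end Pool.Agent.Helper83.TW
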